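import Pool.Agent.W889.VC.Fin

set_option autoImplicit false

/-! Grids describing binary relations: axioms with finitely many multiplicities. -/

namespace Pool.Agent.TH686.FO

open Pool.Agent.W889.VC Pool.Agent.W889.VC.Grid

/-- arities -/
abbrev ar : ℕ → ℕ := fun _ => 2

/-- the multiplicities -/
def kv : Bool ⊕ (Fin 2 → Bool) → ℕ
  | Sum.inl false => 1
  | Sum.inl true => 2
  | Sum.inr f => 3 + Nat.pair 0 (Encodable.encode f)

variable {γ : Grid ℕ}

/-- two rows have the same multiplicities -/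
def SK (γ : Grid ℕ) (r r' : ℕ) : Prop :=
  ∀ c, γ.C c → ∀ j, (γ.Mult r c (kv j) ↔ γ.Mult r' c (kv j))

/-- two columns have the same multiplicities -/
def SCK (γ : Grid ℕ) (c c' : ℕ) : Prop :=
  ∀ r, γ.R r → ∀ j, (γ.Mult r c (kv j) ↔ γ.Mult r c' (kv j))

/-- the column marks the class of the row `r` -/
def MkC (γ : Grid ℕ) (c r : ℕ) : Prop :=
  ∀ r', γ.R r' → (SK γ r' r → γ.Mult r' c (kv (Sum.inl true))) ∧
    (¬ SK γ r' r → γ.Mult r' c (kv (Sum.inl false)))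

/-- the column is the pair of the classes of the rows `r`, `s` -/
def EdC (γ : Grid ℕ) (c r s : ℕ) : Prop :=
  ∀ r', γ.R r' → ∀ f : Fin 2 → Bool, (SK γ r' r ↔ f 0 = true) → (SK γ r' s ↔ f 1 = true) →
    γ.Mult r' c (kv (Sum.inr f))

/-- the axioms -/
structure Good2 (γ : Grid ℕ) : Prop where
  base : Base γ
  denR : ∀ r r1 r2, γ.R r → γ.R r1 → γ.R r2 → γ.lt r1 r2 →
    ∃ r', γ.R r' ∧ γ.lt r1 r' ∧ γ.lt r' r2 ∧ SK γ r' r
  denC : ∀ r r1 r2, γ.C r → γ.C r1 → γ.C r2 → γ.lt r1 r2 →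
    ∃ r', γ.C r' ∧ γ.lt r1 r' ∧ γ.lt r' r2 ∧ SCK γ r' r
  inf : ∀ n : ℕ, ∃ X : Fin n → ℕ, (∀ i, γ.R (X i)) ∧ ∀ i j, SK γ (X i) (X j) → i = j
  col : ∀ c, γ.C c → (∃ r, γ.R r ∧ MkC γ c r) ∨ ∃ r, ∃ s, γ.R r ∧ γ.R s ∧ EdC γ c r s
  mark : ∀ r, γ.R r → ∃ c, γ.C c ∧ MkC γ c r

theorem SK.refl (γ : Grid ℕ) (r : ℕ) : SK γ r r := fun _ _ _ => Iff.rfl

theorem SK.symm {r r' : ℕ} (h : SK γ r r') : SK γ r' r := fun c hc j => (h c hc j).symm

theorem SK.trans {r r' r'' : ℕ} (h : SK γ r r') (h' : SK γ r' r'') : SK γ r r'' :=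
  fun c hc j => (h c hc j).trans (h' c hc j)

theorem SK.cl {r r' s : ℕ} (h : SK γ r r') : SK γ s r ↔ SK γ s r' :=
  ⟨fun k => k.trans h, fun k => k.trans h.symm⟩

theorem EdC.cong {c r s r' s' : ℕ} (h : EdC γ c r s) (h1 : SK γ r r') (h2 : SK γ s s') :
    EdC γ c r' s' := fun t ht f k1 k2 => h t ht f (h1.cl.trans k1) (h2.cl.trans k2)

theorem kv_inj : Function.Injective kv := by
  rintro (a | f) (b | g) h
  · cases a <;> cases b <;> simp [kv] at h ⊢
  · cases a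
    · have : (1 : ℕ) = 3 + Nat.pair 0 (Encodable.encode g) := h
      omega
    · have : (2 : ℕ) = 3 + Nat.pair 0 (Encodable.encode g) := h
      omega
  · cases b
    · have : 3 + Nat.pair 0 (Encodable.encode f) = (1 : ℕ) := h
      omega
    · have : 3 + Nat.pair 0 (Encodable.encode f) = (2 : ℕ) := h
      omega
  · have h1 : 3 + Nat.pair 0 (Encodable.encode f) = 3 + Nat.pair 0 (Encodable.encode g) := h
    have h2 := (Nat.pair_eq_pair.1 (Nat.add_left_cancel h1)).2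
    rw [Encodable.encode_injective h2]

/-- each cell has one of the multiplicities -/
theorem Good2.fin (h : Good2 γ) {r c : ℕ} (hr : γ.R r) (hc : γ.C c) :
    ∃ j, γ.Mult r c (kv j) := by
  classical
  rcases h.col c hc with ⟨s, -, h1⟩ | ⟨s, t, -, -, h1⟩
  · by_cases h2 : SK γ r s
    · exact ⟨_, (h1 r hr).1 h2⟩
    · exact ⟨_, (h1 r hr).2 h2⟩
  · exact ⟨_, h1 r hr ![decide (SK γ r s), decide (SK γ r t)] (by simp) (by simp)⟩

theorem Good2.same (h : Good2 γ) {r r' : ℕ} (hr : γ.R r) (hr' : γ.R r') :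
    SK γ r r' ↔ γ.Same r r' := by
  constructor
  · intro h1 c hc k
    obtain ⟨j, hj⟩ := h.fin hr hc
    have hj' := (h1 c hc j).1 hj
    constructor
    · intro h2
      rw [h2.uniq hj]
      exact hj'
    · intro h2
      rw [h2.uniq hj']
      exact hj
  · intro h1 c hc j
    exact h1 c hc _

theorem Good2.sameC (h : Good2 γ) {c c' : ℕ} (hc : γ.C c) (hc' : γ.C c') (h1 : SCK γ c c') :
    γ.SameC c c' := by
  intro r hr k
  obtain ⟨j, hj⟩ := h.fin hr hc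
  have hj' := (h1 r hr j).1 hj
  constructor
  · intro h2
    rw [h2.uniq hj]
    exact hj'
  · intro h2
    rw [h2.uniq hj']
    exact hj

theorem Good2.infR (h : Good2 γ) (N : ℕ) : ∃ r, N ≤ r ∧ γ.rep r := by
  by_contra hcon
  push Not at hcon
  obtain ⟨X, h1, h2⟩ := h.inf (N + 1)
  choose g hg1 hg2 using fun i => exists_rep γ (X i) (h1 i)
  have h3 : ∀ i, g i < N := fun i => by
    by_contra h4
    exact hcon (g i) (by omega) (hg1 i)
  have h4 : Function.Injective (fun i => (⟨g i, h3 i⟩ : Fin N)) := by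
    intro i j hij
    have h5 : g i = g j := congrArg Fin.val hij
    refine h2 i j ((h.same (h1 i) (h1 j)).2 ?_)
    refine (hg2 i).symm.trans ?_
    rw [h5]
    exact hg2 j
  have := Fintype.card_le_of_injective _ h4
  simp at this

/-- the class of a row -/
theorem Good2.cls (h : Good2 γ) {r : ℕ} (hr : γ.R r) :
    ∃ n r0, γ.Rth n r0 ∧ γ.Same r0 r := by
  obtain ⟨r0, h1, h2⟩ := exists_rep γ r hr
  classical
  exact ⟨Nat.count γ.rep r0, r0, Rth_iff.2 ⟨h1, rfl⟩, h2⟩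

theorem Good2.ind (h : Good2 γ) {n m r r' : ℕ} (hr : γ.Rth n r) (hr' : γ.Rth m r') :
    SK γ r r' ↔ n = m := by
  rw [h.same hr.1.1 hr'.1.1]
  constructor
  · intro h1
    have h2 := rep_eq hr.1 hr'.1 h1
    subst h2
    exact Rth_inj hr hr'
  · rintro rfl
    have h2 := Rth_uniq hr hr'
    subst h2
    exact Same.refl γ r

theorem Good2.colM (h : Good2 γ) {c r n r0 : ℕ} (hc : γ.C c) (h1 : MkC γ c r)
    (h2 : γ.Rth n r0) (h3 : SK γ r0 r) : γ.ColT c (Sum.inl n : Tup ar) := by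
  intro m s hs
  by_cases hmn : m = n
  · subst hmn
    have h4 := Rth_uniq hs h2
    subst h4
    have := (h1 s hs.1.1).1 h3
    simpa [lam, kv] using this
  · have h4 : ¬ SK γ s r := fun k => hmn ((h.ind hs h2).1 (k.trans h3.symm))
    have := (h1 s hs.1.1).2 h4
    simpa [lam, kv, hmn] using this

theorem Good2.colE (h : Good2 γ) {c r s r0 s0 : ℕ} {v : Fin 2 → ℕ} (h1 : EdC γ c r s)
    (h2 : γ.Rth (v 0) r0) (h3 : SK γ r0 r) (h4 : γ.Rth (v 1) s0) (h5 : SK γ s0 s) :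
    γ.ColT c (Sum.inr ⟨0, v⟩ : Tup ar) := by
  intro m t ht
  have h6 := h1 t ht.1.1 (fun j => decide (v j = m)) (by
    rw [← h3.cl, h.ind ht h2, decide_eq_true_eq]
    exact eq_comm) (by
    rw [← h5.cl, h.ind ht h4, decide_eq_true_eq]
    exact eq_comm)
  exact h6

theorem Good2.goodN (h : Good2 γ) : GoodN ar γ where
  base := h.base
  denR := by
    intro r r1 r2 hr h1 h2 h3
    obtain ⟨r', h4, h5, h6, h7⟩ := h.denR r r1 r2 hr h1 h2 h3
    exact ⟨r', h4, h5, h6, (h.same h4 hr).1 h7⟩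
  denC := by
    intro r r1 r2 hr h1 h2 h3
    obtain ⟨r', h4, h5, h6, h7⟩ := h.denC r r1 r2 hr h1 h2 h3
    exact ⟨r', h4, h5, h6, h.sameC h4 hr h7⟩
  inf := h.infR
  col := by
    intro c hc
    rcases h.col c hc with ⟨r, hr, h1⟩ | ⟨r, s, hr, hs, h1⟩
    · obtain ⟨n, r0, h2, h3⟩ := h.cls hr
      exact ⟨_, h.colM hc h1 h2 ((h.same h2.1.1 hr).2 h3)⟩
    · obtain ⟨n, r0, h2, h3⟩ := h.cls hr
      obtain ⟨m, s0, h4, h5⟩ := h.cls hs
      exact ⟨_, h.colE (v := ![n, m]) h1 h2 ((h.same h2.1.1 hr).2 h3) h4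
        ((h.same h4.1.1 hs).2 h5)⟩
  mark := by
    intro n
    obtain ⟨r, hr⟩ := Rth_exists h.infR n
    obtain ⟨c, hc, h1⟩ := h.mark r hr.1.1
    exact ⟨c, hc, h.colM hc h1 hr (SK.refl γ r)⟩

theorem Good2.uT (h : Good2 γ) {c : ℕ} {t t' : Tup ar} (h1 : γ.ColT c t) (h2 : γ.ColT c t') :
    t = t' := by
  refine lam_inj t t' fun n => ?_
  obtain ⟨r, hr⟩ := Rth_exists h.infR n
  exact (h1 n r hr).uniq (h2 n r hr)

theorem Good2.dec_ne (h : Good2 γ) {i : ℕ} (hi : i ≠ 0) (v : Fin 2 → ℕ) :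
    dec ar γ i v = false := by
  unfold dec
  rw [decide_eq_false_iff_not]
  rintro ⟨c, hc, h1⟩
  rcases h.col c hc with ⟨r, hr, h2⟩ | ⟨r, s, hr, hs, h2⟩
  · obtain ⟨n, r0, h3, h4⟩ := h.cls hr
    have h5 := h.uT h1 (h.colM hc h2 h3 ((h.same h3.1.1 hr).2 h4))
    exact absurd h5 (by simp)
  · obtain ⟨n, r0, h3, h4⟩ := h.cls hr
    obtain ⟨m, s0, h5, h6⟩ := h.cls hs
    have h7 := h.uT h1 (h.colE (v := ![n, m]) h2 h3 ((h.same h3.1.1 hr).2 h4) h5
      ((h.same h5.1.1 hs).2 h6))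
    rw [Sum.inr.injEq, Sigma.mk.injEq] at h7
    exact hi h7.1

theorem Good2.dec_zero (h : Good2 γ) (v : Fin 2 → ℕ) :
    dec ar γ 0 v = true ↔ ∃ u : Fin 2 → ℕ, (∀ i, γ.Rth (v i) (u i)) ∧
      ∃ c, γ.C c ∧ EdC γ c (u 0) (u 1) := by
  simp only [dec, decide_eq_true_eq]
  constructor
  · rintro ⟨c, hc, h1⟩
    rcases h.col c hc with ⟨r, hr, h2⟩ | ⟨r, s, hr, hs, h2⟩
    · obtain ⟨n, r0, h3, h4⟩ := h.cls hr
      have h5 := h.uT h1 (h.colM hc h2 h3 ((h.same h3.1.1 hr).2 h4))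
      exact absurd h5 (by simp)
    · obtain ⟨n, r0, h3, h4⟩ := h.cls hr
      obtain ⟨m, s0, h5, h6⟩ := h.cls hs
      have k3 := (h.same h3.1.1 hr).2 h4
      have k5 := (h.same h5.1.1 hs).2 h6
      have h7 := h.uT h1 (h.colE (v := ![n, m]) h2 h3 k3 h5 k5)
      rw [Sum.inr.injEq, Sigma.mk.injEq] at h7
      have h8 : v = ![n, m] := eq_of_heq h7.2
      subst h8
      refine ⟨![r0, s0], fun i => ?_, c, hc, h2.cong k3.symm k5.symm⟩
      fin_cases i
      · exact h3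
      · exact h5
  · rintro ⟨u, h1, c, hc, h2⟩
    exact ⟨c, hc, h.colE h2 (h1 0) (SK.refl γ _) (h1 1) (SK.refl γ _)⟩

/-- grids of binary relations satisfy the axioms -/
theorem good2_of_lab (hb : Base γ) {x : Str ar} (hx : ∀ i v, i ≠ 0 → x i v = false)
    {κ : ℕ → ℕ} {κ' : ℕ → Tup ar} (h : Lab γ x κ κ') : Good2 γ := by
  classical
  have hkv : ∀ c, γ.C c → ∀ r, γ.R r → ∃ j, lam (κ r) (κ' c) = kv j := by
    intro c hc r hr
    have h1 := (h.sC (κ' c)).1 ⟨c, hc, rfl⟩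
    rcases h2 : κ' c with n | ⟨i, v⟩
    · by_cases h3 : κ r = n
      · exact ⟨Sum.inl true, by simp [lam, kv, h3]⟩
      · exact ⟨Sum.inl false, by simp [lam, kv, h3]⟩
    · rw [h2] at h1
      have h3 : i = 0 := by
        by_contra h4
        have := hx i v h4
        have h5 : x i v = true := h1
        rw [this] at h5
        exact absurd h5 (by decide)
      subst h3
      exact ⟨Sum.inr (fun j => decide (v j = κ r)), rfl⟩
  have hmu : ∀ r c k, γ.R r → γ.C c → (γ.Mult r c k ↔ k = lam (κ r) (κ' c)) := by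
    intro r c k hr hc
    have h1 := h.mult r c hr hc
    exact ⟨fun h2 => h2.uniq h1, fun h2 => h2 ▸ h1⟩
  have hsame : ∀ r r', γ.R r → γ.R r' → (SK γ r r' ↔ κ r = κ r') := by
    intro r r' hr hr'
    constructor
    · intro h1
      obtain ⟨c, hc, h2⟩ := (h.sC (Sum.inl (κ r))).2 trivial
      have h3 := (h1 c hc (Sum.inl true)).1 ((hmu r c _ hr hc).2 (by rw [h2]; simp [lam, kv]))
      rw [hmu r' c _ hr' hc, h2] at h3
      by_contra hne
      have h4 : ¬ κ r' = κ r := fun h => hne h.symm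
      simp [lam, kv, h4] at h3
    · intro h1 c hc j
      rw [hmu r c _ hr hc, hmu r' c _ hr' hc, h1]
  have hmark : ∀ c n, γ.C c → κ' c = Sum.inl n → ∀ r, γ.R r → κ r = n → MkC γ c r := by
    intro c n hc h1 r hr h2 r' hr'
    refine ⟨fun h3 => ?_, fun h3 => ?_⟩
    · rw [hsame r' r hr' hr] at h3
      rw [hmu r' c _ hr' hc, h1]
      simp [lam, kv, h3, h2]
    · rw [hsame r' r hr' hr, h2] at h3
      rw [hmu r' c _ hr' hc, h1]
      simp [lam, kv, h3]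
  refine ⟨hb, ?_, ?_, ?_, ?_, ?_⟩
  · intro r r1 r2 hr h1 h2 h3
    obtain ⟨r', h4, h5, h6, h7⟩ := h.denR r r1 r2 hr h1 h2 h3
    exact ⟨r', h4, h5, h6, (hsame r' r h4 hr).2 h7⟩
  · intro r r1 r2 hr h1 h2 h3
    obtain ⟨r', h4, h5, h6, h7⟩ := h.denC r r1 r2 hr h1 h2 h3
    refine ⟨r', h4, h5, h6, fun s hs j => ?_⟩
    rw [hmu s r' _ hs h4, hmu s r _ hs hr, h7]
  · intro n
    choose X h1 h2 using fun i : Fin n => h.sR (i : ℕ)
    refine ⟨X, h1, fun i j h3 => ?_⟩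
    rw [hsame _ _ (h1 i) (h1 j), h2, h2] at h3
    exact Fin.ext h3
  · intro c hc
    have h1 := (h.sC (κ' c)).1 ⟨c, hc, rfl⟩
    rcases h2 : κ' c with n | ⟨i, v⟩
    · left
      obtain ⟨r, hr, h3⟩ := h.sR n
      exact ⟨r, hr, hmark c n hc h2 r hr h3⟩
    · right
      rw [h2] at h1
      have h3 : i = 0 := by
        by_contra h4
        have := hx i v h4
        have h5 : x i v = true := h1
        rw [this] at h5
        exact absurd h5 (by decide)
      subst h3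
      obtain ⟨r, hr, h4⟩ := h.sR (v 0)
      obtain ⟨s, hs, h5⟩ := h.sR (v 1)
      refine ⟨r, s, hr, hs, fun t ht f k1 k2 => ?_⟩
      rw [hmu t c _ ht hc, h2]
      rw [hsame t r ht hr, h4] at k1
      rw [hsame t s ht hs, h5] at k2
      have h6 : f = fun j => decide (v j = κ t) := by
        funext j
        fin_cases j
        · rw [Bool.eq_iff_iff, decide_eq_true_eq]
          exact k1.symm.trans eq_comm
        · rw [Bool.eq_iff_iff, decide_eq_true_eq]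
          exact k2.symm.trans eq_comm
      rw [h6]
      rfl
  · intro r hr
    obtain ⟨c, hc, h1⟩ := (h.sC (Sum.inl (κ r))).2 trivial
    exact ⟨c, hc, hmark c _ hc h1 r hr rfl⟩

end Pool.Agent.TH686.FO
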