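import Mathlib

set_option autoImplicit false

/-! The relational language with two binary relation symbols. -/

namespace Pool.Agent.TH686.FO

/-- The two relation symbols, both binary. -/
inductive R2 : ℕ → Type
  | fst : R2 2
  | snd : R2 2

/-- The language with two binary relation symbols and no function symbols. -/
def L2 : FirstOrder.Language.{0, 0} := ⟨fun _ => Empty, R2⟩

end Pool.Agent.TH686.FO
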