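import Pool.Agent.TH686.FO.Tgt
import Pool.Agent.W889.VC.PL
import Pool.Agent.TH686.FS.Cls
import Pool.Agent.TH686.FO.L2

set_option autoImplicit false

/-! First-order completeness of interval orders and of pairs of linear orders. -/

namespace Pool.Agent.TH686.FO

open FirstOrder FirstOrder.Language
open Pool.Agent.W889.FO Pool.Agent.W889.VC Pool.Agent.W889.VC.Grid
open Pool.Agent.W889.FO.StA (FD.all1 FD.ex1)
open Pool.Agent.W889.FO.StE (LG gd siso_gd fd_gd)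

abbrev x4 {α : Type} : ((((α ⊕ Unit) ⊕ Unit) ⊕ Unit) ⊕ Unit) ⊕ Unit := Sum.inl x3
abbrev x5 {α : Type} : (((((α ⊕ Unit) ⊕ Unit) ⊕ Unit) ⊕ Unit) ⊕ Unit) ⊕ Unit := Sum.inl x4

section fd

variable {L' : FirstOrder.Language.{0, 0}}

/-- definable binary relations -/
def FB (y : L'.Structure ℕ → ℕ → ℕ → Prop) : Prop :=
  ∀ {α : Type} (i j : α), FD (fun _ => True) (fun S v => y S (v i) (v j))

/-- definable sets -/
def FU (R : L'.Structure ℕ → ℕ → Prop) : Prop :=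
  ∀ {α : Type} (i : α), FD (fun _ => True) (fun S v => R S (v i))

variable {y : L'.Structure ℕ → ℕ → ℕ → Prop} {R C : L'.Structure ℕ → ℕ → Prop}
  {D : L'.Structure ℕ → Grid ℕ}

theorem fg_mk (hy : FB y) (hR : FU R) (hC : FU C) : FG (fun S => mk (R S) (C S) (y S)) where
  R := hR
  C := hC
  lt := hy
  iR i j := (hy j i).not.and <| FD.all1 <| (hR x0).imp <|
    (hy x0 (Sum.inl j)).imp (hy x0 (Sum.inl i))
  iC i j := (hy i j).not.and <| FD.all1 <| (hC x0).imp <|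
    (hy (Sum.inl j) x0).imp (hy (Sum.inl i) x0)

theorem fu_PPd (hy : FB y) : FU (fun S => PPd (y S)) := fun i =>
  FD.ex1 <| FD.ex1 <| (hy x1 x0).and <| (hy (Sum.inl (Sum.inl i)) x1).not.and <|
    (hy x1 (Sum.inl (Sum.inl i))).not.and <| (hy (Sum.inl (Sum.inl i)) x0).not.and <|
    (hy x0 (Sum.inl (Sum.inl i))).not

theorem fu_Rd (hy : FB y) : FU (fun S => Rd (y S)) := fun i =>
  (fu_PPd hy i).not.and <| FD.ex1 <| (fu_PPd hy x0).and (hy (Sum.inl i) x0)

theorem fu_Cd (hy : FB y) : FU (fun S => Cd (y S)) := fun i =>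
  (fu_PPd hy i).not.and <| FD.ex1 <| (fu_PPd hy x0).and (hy x0 (Sum.inl i))

theorem fu_Rt (hy : FB y) : FU (fun S => Rt (y S)) := fun i =>
  FD.all1 <| FD.all1 <| (hy x1 (Sum.inl (Sum.inl i))).imp <|
    (hy x0 (Sum.inl (Sum.inl i))).imp <| (FD.eq x1 x0).or <| (hy x1 x0).or (hy x0 x1)

theorem fu_Ct (hy : FB y) : FU (fun S => Ct (y S)) := fun i =>
  FD.all1 <| FD.all1 <| (hy (Sum.inl (Sum.inl i)) x1).imp <|
    (hy (Sum.inl (Sum.inl i)) x0).imp <| (FD.eq x1 x0).or <| (hy x1 x0).or (hy x0 x1)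

theorem ax_rep (hD : FG D) (hy : FB y) : Ax (fun S => Rep (D S) (y S)) := by
  have h1 : Ax (fun S => ∀ u v, (D S).R u → (D S).R v → (y S u v ↔ (D S).lt u v)) :=
    Ax.of <| FD.all1 <| FD.all1 <| (hD.R x1).imp <| (hD.R x0).imp <| (hy x1 x0).iff (hD.lt x1 x0)
  have h2 : Ax (fun S => ∀ u v, (D S).C u → (D S).C v → (y S u v ↔ (D S).lt u v)) :=
    Ax.of <| FD.all1 <| FD.all1 <| (hD.C x1).imp <| (hD.C x0).imp <| (hy x1 x0).iff (hD.lt x1 x0)
  have h3 : Ax (fun S => ∀ u v, (D S).R u → (D S).C v → y S u v) :=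
    Ax.of <| FD.all1 <| FD.all1 <| (hD.R x1).imp <| (hD.C x0).imp <| hy x1 x0
  have h4 : Ax (fun S => ∀ u v, (D S).C u → (D S).R v → ¬ y S u v) :=
    Ax.of <| FD.all1 <| FD.all1 <| (hD.C x1).imp <| (hD.R x0).imp <| (hy x1 x0).not
  have h5 : Ax (fun S => ∀ u v r, (D S).R u → (D S).P v → (D S).R r → (D S).iR v r →
      (y S u v ↔ (D S).lt u r)) :=
    Ax.of <| FD.all1 <| FD.all1 <| FD.all1 <| (hD.R x2).imp <| (hD.P x1).imp <|
      (hD.R x0).imp <| (hD.iR x1 x0).imp <| (hy x2 x1).iff (hD.lt x2 x0)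
  have h6 : Ax (fun S => ∀ u v, (D S).P u → (D S).R v → ¬ y S u v) :=
    Ax.of <| FD.all1 <| FD.all1 <| (hD.P x1).imp <| (hD.R x0).imp <| (hy x1 x0).not
  have h7 : Ax (fun S => ∀ u v c, (D S).P u → (D S).C v → (D S).C c → (D S).iC u c →
      (y S u v ↔ (D S).lt c v)) :=
    Ax.of <| FD.all1 <| FD.all1 <| FD.all1 <| (hD.P x2).imp <| (hD.C x1).imp <|
      (hD.C x0).imp <| (hD.iC x2 x0).imp <| (hy x2 x1).iff (hD.lt x0 x1)
  have h8 : Ax (fun S => ∀ u v, (D S).C u → (D S).P v → ¬ y S u v) :=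
    Ax.of <| FD.all1 <| FD.all1 <| (hD.C x1).imp <| (hD.P x0).imp <| (hy x1 x0).not
  refine (h1.and (h2.and (h3.and (h4.and (h5.and (h6.and (h7.and h8))))))).congr fun S => ?_
  exact ⟨fun ⟨k1, k2, k3, k4, k5, k6, k7, k8⟩ => ⟨k1, k2, k3, k4, k5, k6, k7, k8⟩,
    fun ⟨k1, k2, k3, k4, k5, k6, k7, k8⟩ => ⟨k1, k2, k3, k4, k5, k6, k7, k8⟩⟩

theorem ax_pp0 (hD : FG D) (hy : FB y) : Ax (fun S => PP0 (D S) (y S)) :=
  Ax.of <| FD.all1 <| FD.all1 <| (hD.P x1).imp <| (hD.P x0).imp <| (hy x1 x0).not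

theorem ax_pp2 (hD : FG D) (hy : FB y) : Ax (fun S => PP2 (D S) (y S)) :=
  Ax.of <| FD.all1 <| FD.all1 <| FD.all1 <| FD.all1 <| FD.all1 <| FD.all1 <|
    (hD.P x5).imp <| (hD.P x4).imp <| (hD.R x3).imp <| (hD.iR x5 x3).imp <|
    (hD.C x2).imp <| (hD.iC x5 x2).imp <| (hD.R x1).imp <| (hD.iR x4 x1).imp <|
    (hD.C x0).imp <| (hD.iC x4 x0).imp <| ((FD.eq x3 x1).and (FD.eq x2 x0)).not.imp <|
    (hy x5 x4).iff <| ((FD.eq x3 x1).or (hD.lt x3 x1)).and ((FD.eq x2 x0).or (hD.lt x2 x0))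

theorem ax_tw0 (hD : FG D) (hy : FB y) : Ax (fun S => TW0 (D S) (y S)) :=
  Ax.of <| FD.all1 <| FD.all1 <| FD.all1 <| FD.all1 <| (hD.R x1).imp <| (hD.C x0).imp <|
    (hD.Fib x1 x0 x3).imp <| (hD.Fib x1 x0 x2).imp <| (hy x3 x2).not

theorem ax_or1 {z : L'.Structure ℕ → ℕ → ℕ → Prop} (hD : FG D) (hy : FB y) (hz : FB z) :
    Ax (fun S => Or1 (D S) (y S) (z S)) := by
  have h1 : Ax (fun S => ∀ u v, (D S).P u → (D S).R v → ¬ y S v u → z S u v) :=
    Ax.of <| FD.all1 <| FD.all1 <| (hD.P x1).imp <| (hD.R x0).imp <| (hy x0 x1).not.imp (hz x1 x0)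
  have h2 : Ax (fun S => ∀ u v, (D S).P u → (D S).C v → z S u v) :=
    Ax.of <| FD.all1 <| FD.all1 <| (hD.P x1).imp <| (hD.C x0).imp (hz x1 x0)
  have h3 : Ax (fun S => ∀ u v r r', (D S).P u → (D S).P v → (D S).R r → (D S).iR u r →
      (D S).R r' → (D S).iR v r' → (D S).lt r r' → z S u v) :=
    Ax.of <| FD.all1 <| FD.all1 <| FD.all1 <| FD.all1 <| (hD.P x3).imp <| (hD.P x2).imp <|
      (hD.R x1).imp <| (hD.iR x3 x1).imp <| (hD.R x0).imp <| (hD.iR x2 x0).imp <|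
      (hD.lt x1 x0).imp (hz x3 x2)
  refine (h1.and (h2.and h3)).congr fun S => ?_
  exact ⟨fun ⟨k1, k2, k3⟩ => ⟨k1, k2, k3⟩, fun ⟨k1, k2, k3⟩ => ⟨k1, k2, k3⟩⟩

theorem ax_slo (hy : FB y) : Ax (fun S => SLO (y S)) := by
  have h1 : Ax (fun S => ∀ m, ¬ y S m m) := Ax.of <| FD.all1 <| (hy x0 x0).not
  have h2 : Ax (fun S => ∀ a b c, y S a b → y S b c → y S a c) :=
    Ax.of <| FD.all1 <| FD.all1 <| FD.all1 <| (hy x2 x1).imp <| (hy x1 x0).imp (hy x2 x0)
  have h3 : Ax (fun S => ∀ a b, a ≠ b → y S a b ∨ y S b a) :=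
    Ax.of <| FD.all1 <| FD.all1 <| (FD.eq x1 x0).not.imp <| (hy x1 x0).or (hy x0 x1)
  refine (h1.and (h2.and h3)).congr fun S => ?_
  exact ⟨fun ⟨k1, k2, k3⟩ => ⟨k1, k2, k3⟩, fun ⟨k1, k2, k3⟩ => ⟨k1, k2, k3⟩⟩

end fd

/-! ### one binary relation -/

section one

open Classical in
/-- the relation as a Boolean function -/
noncomputable def bs (S : LG.Structure ℕ) : BinStr := fun u v => decide (gd S u v)

theorem bs_iff (S : LG.Structure ℕ) (u v : ℕ) : bs S u v = true ↔ gd S u v := by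
  simp [bs]

theorem bs_fun (S : LG.Structure ℕ) : (fun u v => bs S u v = true) = gd S := by
  funext u v
  exact propext (bs_iff S u v)

/-- the structure given by a relation -/
@[reducible] def ofb (y : BinStr) : LG.Structure ℕ :=
  { funMap := fun {_} f => isEmptyElim f
    RelMap := fun {n} Q => match n, Q with
      | _, FirstOrder.Language.graphRel.adj => fun v => y (v 0) (v 1) = true }

theorem gd_ofb (y : BinStr) (u v : ℕ) : gd (ofb y) u v ↔ y u v = true := Iff.rfl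

theorem bs_ofb (y : BinStr) : bs (ofb y) = y := by
  funext u v
  rw [Bool.eq_iff_iff, bs_iff]
  exact Iff.rfl

theorem siso_bs {S S' : LG.Structure ℕ} (h : BIso (bs S) (bs S')) : SIso S S' := by
  obtain ⟨σ, h⟩ := h
  refine siso_gd σ fun u v => ?_
  rw [← bs_iff, ← bs_iff, h]

theorem fb_gd : FB gd := fun i j => fd_gd i j

/-- the grid of an interval order -/
def DIo (S : LG.Structure ℕ) : Grid ℕ := mk (Rd (gd S)) (Cd (gd S)) (gd S)

theorem DI_bs (S : LG.Structure ℕ) : DI (bs S) = DIo S := by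
  unfold DI DIo
  rw [bs_fun]

theorem fg_DIo : FG DIo := fg_mk fb_gd (fu_Rd fb_gd) (fu_Cd fb_gd)

/-- the class -/
def WIo (S : LG.Structure ℕ) : Prop := Rep (DIo S) (gd S) ∧ PP0 (DIo S) (gd S)

theorem WI_bs (S : LG.Structure ℕ) : WI (bs S) ↔ WIo S := by
  unfold WI WIo
  rw [DI_bs, bs_fun]

theorem ft_IO : FT DIo WIo where
  fg := fg_DIo
  ax := (ax_rep fg_DIo fb_gd).and (ax_pp0 fg_DIo fb_gd)
  iso' := by
    intro S S' h h' hg hg' hi
    refine siso_bs (target_IO.iso' _ _ ((WI_bs S).2 h) ((WI_bs S').2 h') ?_ ?_ ?_)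
    · rw [DI_bs]
      exact hg.base
    · rw [DI_bs]
      exact hg'.base
    · rw [DI_bs, DI_bs]
      exact hi
  ex := by
    intro γ h1 h2 h3 h4 h5
    obtain ⟨y, k1, k2⟩ := target_IO.ex γ h1 h2 h3 h4 h5
    refine ⟨ofb y, ?_, ?_⟩
    · rw [← WI_bs, bs_ofb]
      exact k1
    · rw [← DI_bs, bs_ofb]
      exact k2

/-- Vaught's conjecture reduces to theories of interval orders which are unions of a chain and an
antichain. -/
theorem red_io (hV : ∀ T' : LG.Theory, (∀ S : LG.Structure ℕ, @Theory.Model LG ℕ S T' →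
    FS.CAI (bs S)) → Vaught LG T') (T : LG.Theory) : Vaught LG T := by
  refine ft_IO.reduce (fun T' hT' => hV T' fun S hS => ?_) T
  obtain ⟨h1, h2⟩ := hT' S hS
  refine FS.target_CAI.cls _ ((WI_bs S).2 h1) ?_
  rw [DI_bs]
  exact h2.base

end one

/-! ### two binary relations -/

instance : L2.IsRelational := fun _ => inferInstanceAs (IsEmpty Empty)

/-- the first relation -/
def g1 (S : L2.Structure ℕ) (u v : ℕ) : Prop := @Structure.RelMap L2 ℕ S 2 R2.fst ![u, v]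

/-- the second relation -/
def g2 (S : L2.Structure ℕ) (u v : ℕ) : Prop := @Structure.RelMap L2 ℕ S 2 R2.snd ![u, v]

section two

theorem fd_two {L' : FirstOrder.Language.{0, 0}} (Q : L'.Relations 2) :
    FB (fun S u v => @Structure.RelMap L' ℕ S 2 Q ![u, v]) := by
  intro α i j
  refine (FD.rel (W := fun _ => True) (L := L') Q ![i, j]).congr fun S _ v => ?_
  have e : (fun m : Fin 2 => v (![i, j] m)) = ![v i, v j] := by
    funext m
    fin_cases m <;> rfl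
  rw [e]

theorem fb_g1 : FB g1 := fun {_} i j => fd_two (L' := L2) (show L2.Relations 2 from R2.fst) i j

theorem fb_g2 : FB g2 := fun {_} i j => fd_two (L' := L2) (show L2.Relations 2 from R2.snd) i j

open Classical in
/-- the pair of Boolean functions -/
noncomputable def ps (S : L2.Structure ℕ) : PairStr :=
  (fun u v => decide (g1 S u v), fun u v => decide (g2 S u v))

theorem ps1 (S : L2.Structure ℕ) (u v : ℕ) : (ps S).1 u v = true ↔ g1 S u v := by
  simp [ps]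

theorem ps2 (S : L2.Structure ℕ) (u v : ℕ) : (ps S).2 u v = true ↔ g2 S u v := by
  simp [ps]

theorem ps1' (S : L2.Structure ℕ) : (fun u v => (ps S).1 u v = true) = g1 S := by
  funext u v
  exact propext (ps1 S u v)

theorem ps2' (S : L2.Structure ℕ) : (fun u v => (ps S).2 u v = true) = g2 S := by
  funext u v
  exact propext (ps2 S u v)

/-- the intersection -/
def gc (S : L2.Structure ℕ) (u v : ℕ) : Prop := g1 S u v ∧ g2 S u v

theorem cap_ps (S : L2.Structure ℕ) : cap (ps S) = gc S := by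
  funext u v
  exact propext (and_congr (ps1 S u v) (ps2 S u v))

theorem fb_gc : FB gc := fun i j => (fb_g1 i j).and (fb_g2 i j)

/-- the structure given by a pair of relations -/
@[reducible] def ofp (y : PairStr) : L2.Structure ℕ :=
  { funMap := fun {_} f => isEmptyElim f
    RelMap := fun {n} Q => match n, Q with
      | _, R2.fst => fun v => y.1 (v 0) (v 1) = true
      | _, R2.snd => fun v => y.2 (v 0) (v 1) = true }

theorem ps_ofp (y : PairStr) : ps (ofp y) = y := by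
  refine Prod.ext ?_ ?_
  · funext u v
    rw [Bool.eq_iff_iff, ps1]
    exact Iff.rfl
  · funext u v
    rw [Bool.eq_iff_iff, ps2]
    exact Iff.rfl

theorem siso_ps {S S' : L2.Structure ℕ} (h : PIso (ps S) (ps S')) : SIso S S' := by
  obtain ⟨σ, h⟩ := h
  have e1 : ∀ v : Fin 2 → ℕ, ![v 0, v 1] = v := fun v => by
    funext m
    fin_cases m <;> rfl
  have e2 : ∀ v : Fin 2 → ℕ, ![σ (v 0), σ (v 1)] = fun i => σ (v i) := fun v => by
    funext m
    fin_cases m <;> rfl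
  obtain ⟨f, -⟩ := siso_of (S := S) (S' := S') σ (fun n Q v => by
    cases Q with
    | fst =>
      have h1 : g1 S' (σ (v 0)) (σ (v 1)) ↔ g1 S (v 0) (v 1) := by
        rw [← ps1, ← ps1, (h _ _).1]
      unfold g1 at h1
      rw [e1, e2] at h1
      exact h1
    | snd =>
      have h1 : g2 S' (σ (v 0)) (σ (v 1)) ↔ g2 S (v 0) (v 1) := by
        rw [← ps2, ← ps2, (h _ _).2]
      unfold g2 at h1
      rw [e1, e2] at h1
      exact h1)
  exact ⟨f⟩

/-- the grid -/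
def DLo (S : L2.Structure ℕ) : Grid ℕ := mk (Rt (gc S)) (Ct (gc S)) (gc S)

theorem DL_ps (S : L2.Structure ℕ) : DL (ps S) = DLo S := by
  unfold DL DLo
  rw [cap_ps]

theorem fg_DLo : FG DLo := fg_mk fb_gc (fu_Rt fb_gc) (fu_Ct fb_gc)

/-- the class -/
def WLo (S : L2.Structure ℕ) : Prop :=
  Rep (DLo S) (gc S) ∧ PP2 (DLo S) (gc S) ∧ TW0 (DLo S) (gc S) ∧ Or1 (DLo S) (gc S) (g1 S) ∧
    SLO (g1 S) ∧ SLO (g2 S)

theorem WL_ps (S : L2.Structure ℕ) : WL (ps S) ↔ WLo S ∧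
    ∀ r c, (DLo S).R r → (DLo S).C c → ∃ k, (DLo S).Mult r c k := by
  unfold WL WLo TwoLin
  rw [DL_ps, cap_ps, ps1', ps2']
  tauto

theorem ft_PL : FT DLo WLo where
  fg := fg_DLo
  ax := (ax_rep fg_DLo fb_gc).and <| (ax_pp2 fg_DLo fb_gc).and <| (ax_tw0 fg_DLo fb_gc).and <|
    (ax_or1 fg_DLo fb_gc fb_g1).and <| (ax_slo fb_g1).and (ax_slo fb_g2)
  iso' := by
    intro S S' h h' hg hg' hi
    refine siso_ps (target_PL.iso' _ _ ((WL_ps S).2 ⟨h, ?_⟩) ((WL_ps S').2 ⟨h', ?_⟩) ?_ ?_ ?_)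
    · intro r c hr hc
      obtain ⟨j, hj⟩ := hg.fin hr hc
      exact ⟨_, hj⟩
    · intro r c hr hc
      obtain ⟨j, hj⟩ := hg'.fin hr hc
      exact ⟨_, hj⟩
    · rw [DL_ps]
      exact hg.base
    · rw [DL_ps]
      exact hg'.base
    · rw [DL_ps, DL_ps]
      exact hi
  ex := by
    intro γ h1 h2 h3 h4 h5
    obtain ⟨y, k1, k2⟩ := target_PL.ex γ h1 h2 h3 h4 h5
    refine ⟨ofp y, ?_, ?_⟩
    · have h6 := WL_ps (ofp y)
      rw [ps_ofp] at h6
      exact (h6.1 k1).1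
    · rw [← DL_ps, ps_ofp]
      exact k2

/-- Vaught's conjecture reduces to theories of pairs of linear orders. -/
theorem red_pl (hV : ∀ T' : L2.Theory, (∀ S : L2.Structure ℕ, @Theory.Model L2 ℕ S T' →
    SLO (g1 S) ∧ SLO (g2 S)) → Vaught L2 T') (T : LG.Theory) : Vaught LG T := by
  refine ft_PL.reduce (fun T' hT' => hV T' fun S hS => ?_) T
  exact (hT' S hS).1.2.2.2.2

end two

end Pool.Agent.TH686.FO
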