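import Pool.Agent.TH686.FO.Rec

set_option autoImplicit false

/-! From Borel classes of binary relations to first-order theories. -/

namespace Pool.Agent.TH686.FO

open FirstOrder FirstOrder.Language
open Pool.Agent.W889.FO Pool.Agent.W889.VC
open Pool.Agent.W889.FO.StE (LG gd siso_gd fd_gd)

/-- the dichotomy for invariant Borel subclasses of `K` gives the dichotomy for theories all of
whose models are in `K` -/
theorem pos_fo {K : BinStr → Prop} (hK : VCof True BIso K) (T : LG.Theory)
    (hT : ∀ S : LG.Structure ℕ, @Theory.Model LG ℕ S T → K (bs S)) : Vaught LG T := by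
  have := StD.countable_LG
  have hsc : Countable LG.Sentence := countable_sentence
  have hrel : ∀ (n : ℕ) (R : LG.Relations n) (a : Fin n → ℕ),
      BP (fun y : BinStr => @Structure.RelMap LG ℕ (ofb y) n R a) := by
    intro n R a
    cases R with
    | adj => exact bp_atom (a 0) (a 1)
  let B : Set BinStr := {y | @Theory.Model LG ℕ (ofb y) T}
  have hB : MeasurableSet B := by
    have hT' : Countable T := Subtype.countable
    have h1 : BP (fun y : BinStr => ∀ φ : T, @Sentence.Realize LG ℕ (ofb y) φ.1) :=
      BP.all fun φ => bp_sentence hrel φ.1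
    refine (congrArg MeasurableSet (Set.ext fun y => ?_)).mp h1
    constructor
    · exact fun h2 => ax_iff.2 fun φ hφ => h2 ⟨φ, hφ⟩
    · exact fun h2 φ => ax_iff.1 h2 φ.1 φ.2
  have hiso : ∀ y z : BinStr, BIso y z → SIso (ofb y) (ofb z) := by
    intro y z h
    refine siso_bs ?_
    rw [bs_ofb, bs_ofb]
    exact h
  have hiso' : ∀ y z : BinStr, SIso (ofb y) (ofb z) → BIso y z := by
    rintro y z ⟨e⟩
    let σ : Equiv.Perm ℕ := @FirstOrder.Language.Equiv.toEquiv LG ℕ ℕ (ofb y) (ofb z) e
    refine ⟨σ, fun m n => ?_⟩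
    have h1 := iso_rel e FirstOrder.Language.graphRel.adj ![m, n]
    rw [Bool.eq_iff_iff]
    exact h1
  have hob : ∀ S : LG.Structure ℕ, SIso S (ofb (bs S)) := fun S => siso_bs (by
    rw [bs_ofb]
    exact ⟨Equiv.refl ℕ, fun _ _ => rfl⟩)
  rcases hK B hB (fun y z h => ⟨fun h1 => (hiso y z h).model h1,
    fun h1 => (hiso y z h).symm.model h1⟩) (fun y hy => by
      have := hT (ofb y) hy
      rwa [bs_ofb] at this) with ⟨f, hf⟩ | ⟨g, h1, h2, h3⟩
  · left
    refine ⟨fun n => ofb (f n), fun S hS => ?_⟩
    obtain ⟨n, hn⟩ := hf (bs S) ((hob S).model hS)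
    exact ⟨n, (hob S).trans (hiso _ _ hn).symm⟩
  · right
    refine ⟨fun c => ofb (g c), h2, fun c d hcd => h3 c d (hiso' _ _ hcd), fun n R a => ?_⟩
    cases R with
    | adj =>
      have h4 : Continuous fun c => g c (a 0) (a 1) :=
        (continuous_apply (a 1)).comp ((continuous_apply (a 0)).comp (h1 trivial))
      exact (isClopen_discrete {true}).preimage h4

/-- completeness of a class of binary relations -/
def Comp (K : LG.Structure ℕ → Prop) : Prop :=
  (∀ T : LG.Theory, (∀ S : LG.Structure ℕ, @Theory.Model LG ℕ S T → K S) → Vaught LG T) →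
    ∀ T : LG.Theory, Vaught LG T

theorem Comp.mono {K K' : LG.Structure ℕ → Prop} (h : Comp K) (hK : ∀ S, K S → K' S) :
    Comp K' := fun hV => h fun T hT => hV T fun S hS => hK S (hT S hS)

/-- all theories from the complete theories of a complete class -/
theorem Comp.full {K : LG.Structure ℕ → Prop} (h : Comp K)
    (hV : ∀ T : LG.Theory, T.IsComplete → (∀ S : LG.Structure ℕ, @Theory.Model LG ℕ S T → K S) →
      VaughtF LG T) (L : FirstOrder.Language.{0, 0}) (hL : Countable L.Symbols) (T : L.Theory) :
    VaughtF L T := by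
  have := StD.countable_LG
  exact all_of_LG (h fun T hT => compl hV T hT) L hL T

theorem countable_LGs : Countable LG.Symbols := by
  have h2 : Countable (Σ n, LG.Relations n) := StD.countable_LG
  have h3 : IsEmpty (Σ n, LG.Functions n) := ⟨fun p => Empty.elim p.2⟩
  exact inferInstanceAs (Countable ((Σ n, LG.Functions n) ⊕ Σ n, LG.Relations n))

theorem countable_L2 : Countable (Σ n, L2.Relations n) := by
  refine Function.Surjective.countable (α := Bool)
    (f := fun b => match b with
      | false => ⟨_, R2.fst⟩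
      | true => ⟨_, R2.snd⟩) ?_
  rintro ⟨n, Q⟩
  cases Q with
  | fst => exact ⟨false, rfl⟩
  | snd => exact ⟨true, rfl⟩

theorem countable_L2s : Countable L2.Symbols := by
  have h2 := countable_L2
  have h3 : IsEmpty (Σ n, L2.Functions n) := ⟨fun p => Empty.elim p.2⟩
  exact inferInstanceAs (Countable ((Σ n, L2.Functions n) ⊕ Σ n, L2.Relations n))

/-- all theories from the complete theories of pairs of linear orders -/
theorem full_pl (hV : ∀ T : L2.Theory, T.IsComplete → (∀ S : L2.Structure ℕ,
      @Theory.Model L2 ℕ S T → SLO (g1 S) ∧ SLO (g2 S)) → VaughtF L2 T)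
    (L : FirstOrder.Language.{0, 0}) (hL : Countable L.Symbols) (T : L.Theory) :
    VaughtF L T := by
  have := countable_L2
  exact all_of_LG (red_pl fun T hT => compl hV T hT) L hL T

end Pool.Agent.TH686.FO
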