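import Pool.Agent.TH686.FO.Inst
import Pool.Agent.W889.FO.All

set_option autoImplicit false

/-! Recodings of graphs as binary relations: first-order completeness of further classes. -/

namespace Pool.Agent.TH686.FO

open FirstOrder FirstOrder.Language
open Pool.Agent.W889.FO Pool.Agent.W889.VC
open Pool.Agent.W889.SD (Nth Big Subd Pth)
open Pool.Agent.W889.FO.StA (FD.all1 FD.ex1)
open Pool.Agent.W889.FO.StE (LG gd siso_gd fd_gd)

/-- the structure given by a relation -/
@[reducible] def ofr (r : ℕ → ℕ → Prop) : LG.Structure ℕ :=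
  { funMap := fun {_} f => isEmptyElim f
    RelMap := fun {n} Q => match n, Q with
      | _, FirstOrder.Language.graphRel.adj => fun v => r (v 0) (v 1) }

theorem gd_ofr (r : ℕ → ℕ → Prop) : gd (ofr r) = r := rfl

/-- interpretations with the same domain -/
def idI {W1 : LG.Structure ℕ → Prop} (ax : Ax W1) {ρ : LG.Structure ℕ → ℕ → ℕ → Prop}
    (hρ : FB ρ) : Itp LG LG where
  W := W1
  axW := ax
  dom := fun _ _ => True
  rel := fun {n} Q => match n, Q with
    | _, FirstOrder.Language.graphRel.adj => fun S v => ρ S (v 0) (v 1)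
  fdom := FD.const True
  frel := fun {n} Q => match n, Q with
    | _, FirstOrder.Language.graphRel.adj => (hρ 0 1).mono fun _ _ => trivial
  inf := fun _ _ N => ⟨N, le_rfl, trivial⟩

theorem idI_D {W1 : LG.Structure ℕ → Prop} (ax : Ax W1) {ρ : LG.Structure ℕ → ℕ → ℕ → Prop}
    (hρ : FB ρ) {S : LG.Structure ℕ} (h : W1 S) : SIso ((idI ax hρ).D S) (ofr (ρ S)) := by
  refine (idI ax hρ).D_iso (S := S) h (Equiv.subtypeUnivEquiv (p := fun _ : ℕ => True)
    fun _ => trivial).symm fun {n} Q u => ?_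
  cases Q with
  | adj => exact Iff.rfl

/-- composition with a definable relation -/
theorem ax_comp {W : LG.Structure ℕ → Prop} (hW : Ax W) {ρ : LG.Structure ℕ → ℕ → ℕ → Prop}
    (hρ : FB ρ) : Ax (fun S => W (ofr (ρ S))) := by
  obtain ⟨T, hT⟩ := hW
  have h0 : Ax (fun _ : LG.Structure ℕ => True) := Ax.of (FD.const True)
  refine ((idI h0 hρ).ax_theory T).congr fun S => ?_
  rw [← hT]
  have h1 := idI_D h0 hρ (S := S) trivial
  exact ⟨fun h => h1.model h.2, fun h => ⟨trivial, h1.symm.model h⟩⟩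

/-- Recoding of binary relations. -/
theorem recode {W1 V0 : LG.Structure ℕ → Prop} (ax : Ax W1)
    {ρ : LG.Structure ℕ → ℕ → ℕ → Prop} (hρ : FB ρ)
    (inj : ∀ (S S' : LG.Structure ℕ) (σ : Equiv.Perm ℕ), W1 S → W1 S' →
      (∀ u v, ρ S' (σ u) (σ v) ↔ ρ S u v) → ∀ u v, gd S' (σ u) (σ v) ↔ gd S u v)
    (ex : ∀ M : LG.Structure ℕ, V0 M → ∃ S, W1 S ∧ ∀ u v, ρ S u v ↔ gd M u v)
    (hV : ∀ T' : LG.Theory, (∀ S : LG.Structure ℕ, @Theory.Model LG ℕ S T' → W1 S) →
      Vaught LG T')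
    (T : LG.Theory) (hT : ∀ S : LG.Structure ℕ, @Theory.Model LG ℕ S T → V0 S) :
    Vaught LG T := by
  have := StD.countable_LG
  have e1 : ∀ v : Fin 2 → ℕ, ![v 0, v 1] = v := fun v => by
    funext m
    fin_cases m <;> rfl
  have hj : Itp.Cnt (idI ax hρ) Unit (fun _ => ()) := by
    refine ⟨fun S S' h h' hi _ => ?_, fun f _ _ c => BP.const _⟩
    have h1 : SIso (ofr (ρ S)) (ofr (ρ S')) :=
      ((idI_D ax hρ h).symm.trans hi).trans (idI_D ax hρ h')
    obtain ⟨e⟩ := h1
    let σ : Equiv.Perm ℕ := @FirstOrder.Language.Equiv.toEquiv LG ℕ ℕ (ofr (ρ S)) (ofr (ρ S')) e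
    refine siso_gd σ (inj S S' σ h h' fun u v => ?_)
    exact iso_rel e FirstOrder.Language.graphRel.adj ![u, v]
  refine (idI ax hρ).transfer hj T (fun M hM => ?_) fun T' hT' => hV T' fun S hS => (hT' S hS).1
  obtain ⟨S, h1, h2⟩ := ex M (hT M hM)
  refine ⟨S, h1, (idI_D ax hρ h1).trans ?_⟩
  refine siso_gd (Equiv.refl ℕ) fun u v => ?_
  rw [gd_ofr]
  exact (h2 u v).symm

/-- Vaught's conjecture reduces to theories of subdivided graphs (with the full axioms). -/
theorem to_W (k : ℕ) (hV : ∀ T' : LG.Theory, (∀ S : LG.Structure ℕ,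
      @Theory.Model LG ℕ S T' → StD.W k S) → Vaught LG T') (T : LG.Theory) : Vaught LG T := by
  have := StD.countable_LG
  refine reduceAB (fun T1 => ?_) LG T
  have hfin : Finite (Σ n, StB.LB.Relations n) := finite_LB
  have : Countable (Σ n, StB.LB.Relations n) := Finite.to_countable
  obtain ⟨p, hp⟩ := Countable.exists_injective_nat (Σ n, StB.LB.Relations n)
  refine StC.reduce (L := StB.LB) ⟨fun n Q => ?_, p, hp⟩ (fun T2 hT2 => ?_) T1
  · cases Q with
    | D => exact Or.inl rfl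
    | C => exact Or.inl rfl
    | M => exact Or.inl rfl
    | fs => exact Or.inr rfl
    | sn => exact Or.inr rfl
    | sc => exact Or.inr rfl
  have : Countable (StC.KC StB.LB) := Finite.to_countable
  obtain ⟨w, hw⟩ := Countable.exists_injective_nat (StC.KC StB.LB)
  refine StE.reduce w hw (fun T3 hT3 => ?_) T2 hT2
  refine (StD.itp k).transfer (StD.cntD k) T3 (fun M hM => ?_) fun T' hT' =>
    hV T' fun S hS => (hT' S hS).1
  obtain ⟨h1, h2, h3⟩ := hT3 M hM
  exact StD.ex k M h1 h2 h3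

/-- from theories in the language of graphs to all theories -/
theorem all_of_LG (h : ∀ T : LG.Theory, Vaught LG T) (L : FirstOrder.Language.{0, 0})
    (hL : Countable L.Symbols) (T : L.Theory) : VaughtF L T := by
  refine St0.reduce L (fun T1 => ?_) T
  have := St0.countable_LF (L := L)
  exact to_subd 0 (fun T2 _ => h T2) _ T1

/-- reduction to complete theories -/
theorem compl {L : FirstOrder.Language.{0, 0}} [L.IsRelational]
    [Countable (Σ n, L.Relations n)] {P : L.Structure ℕ → Prop}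
    (h : ∀ T : L.Theory, T.IsComplete → (∀ S : L.Structure ℕ, @Theory.Model L ℕ S T → P S) →
      VaughtF L T) (T : L.Theory) (hT : ∀ S : L.Structure ℕ, @Theory.Model L ℕ S T → P S) :
    Vaught L T := by
  refine of_complete T fun S hS => ?_
  refine (vaughtF_iff _ _).1 (h _ ?_ fun S' hS' => ?_)
  · exact @FirstOrder.Language.completeTheory.isComplete L ℕ S _
  · exact hT S' (ax_iff.2 fun φ hφ => ax_iff.1 hS' φ (ax_iff.1 hS φ hφ))

/-! ### the classes -/

theorem sub_ss {r : ℕ → ℕ → Prop} (h : Subd 0 r) {u v : ℕ} (hu : ¬ Big r u) (hv : ¬ Big r v) :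
    ¬ r u v := by
  intro huv
  rcases h.cov u hu with h1 | ⟨w, p, w', i, hP, rfl⟩
  · exact h1 v huv
  · rcases h.cl w p w' i v hP huv with ⟨rfl, -⟩ | ⟨rfl, -⟩ | ⟨j, rfl, hj⟩
    · exact hv hP.bw
    · exact hv hP.bw'
    · have := i.2
      have := j.2
      omega

theorem fb_big {ρ : LG.Structure ℕ → ℕ → ℕ → Prop} (hρ : FB ρ) : FU (fun S => Big (ρ S)) :=
  fun i => FD.ex1 <| FD.ex1 <| FD.ex1 <| (FD.eq x2 x1).not.and <| (FD.eq x2 x0).not.and <|
    (FD.eq x1 x0).not.and <| (hρ (Sum.inl (Sum.inl (Sum.inl i))) x2).and <|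
    (hρ (Sum.inl (Sum.inl (Sum.inl i))) x1).and (hρ (Sum.inl (Sum.inl (Sum.inl i))) x0)

/-- comparability -/
def cp (S : LG.Structure ℕ) (u v : ℕ) : Prop := gd S u v ∨ gd S v u

theorem fb_cp : FB cp := fun i j => (fd_gd i j).or (fd_gd j i)

/-- orientations of subdivided graphs, edges below vertices -/
def WTw (S : LG.Structure ℕ) : Prop :=
  StD.W 0 (ofr (cp S)) ∧ ∀ u v, gd S u v → ¬ Big (cp S) u ∧ Big (cp S) v

theorem ax_WTw : Ax WTw := by
  refine (ax_comp (StD.ax_W 0) fb_cp).and (Ax.of ?_)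
  exact FD.all1 <| FD.all1 <| (fd_gd x1 x0).imp <| (fb_big fb_cp x1).not.and (fb_big fb_cp x0)

theorem WTw.iff {S : LG.Structure ℕ} (h : WTw S) (u v : ℕ) :
    gd S u v ↔ cp S u v ∧ ¬ Big (cp S) u := by
  constructor
  · exact fun h1 => ⟨Or.inl h1, (h.2 u v h1).1⟩
  · rintro ⟨h1 | h1, h2⟩
    · exact h1
    · exact absurd (h.2 v u h1).2 h2

theorem red_two (hV : ∀ T' : LG.Theory, (∀ S : LG.Structure ℕ, @Theory.Model LG ℕ S T' →
    WTw S) → Vaught LG T') (T : LG.Theory) : Vaught LG T := by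
  refine to_W 0 (fun T' hT' => ?_) T
  refine recode (W1 := WTw) (V0 := StD.W 0) ax_WTw fb_cp ?_ ?_ hV T' hT'
  · intro S S' σ h h' hσ u v
    rw [h.iff, h'.iff, hσ, ← Pool.Agent.W889.SD.big_map σ fun u v => (hσ u v).symm]
  · intro M hM
    have hs : ∀ u v, gd M u v → gd M v u := hM.sd.symm
    let S : LG.Structure ℕ := ofr fun u v => gd M u v ∧ ¬ Big (gd M) u
    have e : cp S = gd M := by
      funext u v
      refine propext ?_
      show (gd M u v ∧ ¬ Big (gd M) u) ∨ (gd M v u ∧ ¬ Big (gd M) v) ↔ gd M u v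
      constructor
      · rintro (h | h)
        · exact h.1
        · exact hs _ _ h.1
      · intro h
        by_cases h1 : Big (gd M) u
        · exact Or.inr ⟨hs _ _ h, fun h2 => hM.sd.indep u v h1 h2 h⟩
        · exact Or.inl ⟨h, h1⟩
    have e' : SIso M (ofr (gd M)) := siso_gd (Equiv.refl ℕ) fun u v => Iff.rfl
    refine ⟨S, ⟨?_, ?_⟩, fun u v => by rw [e]⟩
    · rw [e]
      exact ⟨hM.sd, hM.inf⟩
    · intro u v h
      rw [e]
      have h1 : gd M u v ∧ ¬ Big (gd M) u := h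
      refine ⟨h1.2, ?_⟩
      by_contra h2
      exact sub_ss hM.sd h1.2 h2 h1.1

/-- the dual class -/
def WTd (S : LG.Structure ℕ) : Prop := WTw (ofr fun u v => gd S v u)

theorem red_dual (hV : ∀ T' : LG.Theory, (∀ S : LG.Structure ℕ, @Theory.Model LG ℕ S T' →
    WTd S) → Vaught LG T') (T : LG.Theory) : Vaught LG T := by
  have hb : FB (fun S u v => gd S v u) := fun i j => fd_gd j i
  refine red_two (fun T' hT' => ?_) T
  refine recode (W1 := WTd) (V0 := WTw) (ρ := fun S u v => gd S v u)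
    (ax_comp (ρ := fun S u v => gd S v u) ax_WTw hb) hb ?_ ?_ hV T' hT'
  · intro S S' σ h h' hσ u v
    exact hσ v u
  · intro M hM
    exact ⟨ofr fun u v => gd M v u, hM, fun u v => Iff.rfl⟩

/-- bipartite graphs -/
theorem red_bip (hV : ∀ T' : LG.Theory, (∀ S : LG.Structure ℕ, @Theory.Model LG ℕ S T' →
    Bip (bs S)) → Vaught LG T') (T : LG.Theory) : Vaught LG T := by
  refine to_W 0 (fun T' hT' => hV T' fun S hS => ?_) T
  have h := (hT' S hS).sd
  refine ⟨⟨fun u => ?_, fun u v huv => ?_⟩, fun u => Big (gd S) u, fun u v huv => ?_⟩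
  · rw [Bool.eq_false_iff, ne_eq, bs_iff]
    exact h.irrefl u
  · rw [bs_iff] at huv ⊢
    exact h.symm _ _ huv
  · rw [bs_iff] at huv
    by_cases hu : Big (gd S) u
    · exact iff_of_true hu fun hv => h.indep u v hu hv huv
    · exact iff_of_false hu fun hv => sub_ss h hu hv huv

/-- the complement -/
def cn (S : LG.Structure ℕ) (u v : ℕ) : Prop := u ≠ v ∧ ¬ gd S u v

theorem fb_cn : FB cn := fun i j => (FD.eq i j).not.and (fd_gd i j).not

/-- co-bipartite graphs -/
theorem red_cobip (hV : ∀ T' : LG.Theory, (∀ S : LG.Structure ℕ, @Theory.Model LG ℕ S T' →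
    IsGraph (bs S) ∧ Bip (comp (bs S))) → Vaught LG T') (T : LG.Theory) : Vaught LG T := by
  refine to_W 0 (fun T' hT' => ?_) T
  refine recode (W1 := fun S => StD.W 0 (ofr (cn S)) ∧ ∀ u, ¬ gd S u u) (V0 := StD.W 0)
    ((ax_comp (StD.ax_W 0) fb_cn).and (Ax.of <| FD.all1 (fd_gd x0 x0).not)) fb_cn ?_ ?_
    (fun T2 hT2 => hV T2 fun S hS => ?_) T' hT'
  · intro S S' σ h h' hσ u v
    have h1 := hσ u v
    unfold cn at h1
    by_cases huv : u = v
    · subst huv
      exact iff_of_false (h'.2 _) (h.2 _)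
    · have h2 : σ u ≠ σ v := fun e => huv (σ.injective e)
      constructor
      · intro h3
        by_contra h4
        exact (h1.2 ⟨huv, h4⟩).2 h3
      · intro h3
        by_contra h4
        exact (h1.1 ⟨h2, h4⟩).2 h3
  · intro M hM
    let S : LG.Structure ℕ := ofr (cn M)
    have e : cn S = gd M := by
      funext u v
      refine propext ?_
      show (u ≠ v ∧ ¬ (u ≠ v ∧ ¬ gd M u v)) ↔ gd M u v
      constructor
      · rintro ⟨h1, h2⟩
        by_contra h3
        exact h2 ⟨h1, h3⟩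
      · intro h
        refine ⟨?_, fun h1 => h1.2 h⟩
        rintro rfl
        exact hM.sd.irrefl u h
    refine ⟨S, ⟨?_, fun u h => ?_⟩, fun u v => by rw [e]⟩
    · rw [e]
      exact ⟨hM.sd, hM.inf⟩
    · have h1 : u ≠ u ∧ ¬ gd M u u := h
      exact h1.1 rfl
  · obtain ⟨h1, h2⟩ := hT2 S hS
    have h3 : Subd 0 (cn S) := h1.sd
    have hs : ∀ u v, gd S u v → gd S v u := by
      intro u v h
      by_contra h4
      have hne : v ≠ u := by
        rintro rfl
        exact h2 _ h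
      exact (h3.symm v u ⟨hne, h4⟩).2 h
    have hc : ∀ u v, comp (bs S) u v = true ↔ cn S u v := by
      intro u v
      unfold comp cn
      by_cases huv : u = v
      · rw [if_pos huv]
        exact iff_of_false (by decide) fun h => h.1 huv
      · rw [if_neg huv, Bool.not_eq_true', Bool.eq_false_iff, ne_eq, bs_iff]
        exact ⟨fun h => ⟨huv, h⟩, fun h => h.2⟩
    refine ⟨⟨fun u => ?_, fun u v huv => ?_⟩, ⟨fun u => ?_, fun u v huv => ?_⟩,
      fun u => Big (cn S) u, fun u v huv => ?_⟩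
    · rw [Bool.eq_false_iff, ne_eq, bs_iff]
      exact h2 u
    · rw [bs_iff] at huv ⊢
      exact hs _ _ huv
    · rw [Bool.eq_false_iff, ne_eq, hc]
      exact fun h => h.1 rfl
    · rw [hc] at huv ⊢
      exact h3.symm _ _ huv
    · rw [hc] at huv
      by_cases hu : Big (cn S) u
      · exact iff_of_true hu fun hv => h3.indep u v hu hv huv
      · exact iff_of_false hu fun hv => sub_ss h3 hu hv huv

/-- adjacency outside the clique of the vertices with three neighbours -/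
def sr (S : LG.Structure ℕ) (u v : ℕ) : Prop := gd S u v ∧ ¬ (Big (gd S) u ∧ Big (gd S) v)

theorem fb_sr : FB sr := fun i j =>
  (fd_gd i j).and ((fb_big (ρ := gd) fb_gd i).and (fb_big (ρ := gd) fb_gd j)).not

/-- split graphs of subdivided graphs -/
structure WSp (S : LG.Structure ℕ) : Prop where
  w : StD.W 0 (ofr (sr S))
  ir : ∀ u, ¬ gd S u u
  cl : ∀ u v, Big (gd S) u → Big (gd S) v → u ≠ v → gd S u v
  bb : ∀ u, Big (gd S) u ↔ Big (sr S) u

theorem ax_WSp : Ax WSp := by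
  have h1 : Ax (fun S : LG.Structure ℕ => ∀ u, ¬ gd S u u) := Ax.of <| FD.all1 (fd_gd x0 x0).not
  have h2 : Ax (fun S : LG.Structure ℕ => ∀ u v, Big (gd S) u → Big (gd S) v → u ≠ v →
      gd S u v) := Ax.of <| FD.all1 <| FD.all1 <| (fb_big (ρ := gd) fb_gd x1).imp <|
        (fb_big (ρ := gd) fb_gd x0).imp <| (FD.eq x1 x0).not.imp (fd_gd x1 x0)
  have h3 : Ax (fun S : LG.Structure ℕ => ∀ u, Big (gd S) u ↔ Big (sr S) u) :=
    Ax.of <| FD.all1 <| (fb_big (ρ := gd) fb_gd x0).iff (fb_big fb_sr x0)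
  refine ((ax_comp (StD.ax_W 0) fb_sr).and (h1.and (h2.and h3))).congr fun S => ?_
  exact ⟨fun ⟨k1, k2, k3, k4⟩ => ⟨k1, k2, k3, k4⟩, fun ⟨k1, k2, k3, k4⟩ => ⟨k1, k2, k3, k4⟩⟩

theorem WSp.iff {S : LG.Structure ℕ} (h : WSp S) (u v : ℕ) :
    gd S u v ↔ sr S u v ∨ (Big (sr S) u ∧ Big (sr S) v ∧ u ≠ v) := by
  rw [← h.bb, ← h.bb]
  constructor
  · intro h1
    by_cases h2 : Big (gd S) u ∧ Big (gd S) v
    · refine Or.inr ⟨h2.1, h2.2, ?_⟩
      rintro rfl
      exact h.ir u h1
    · exact Or.inl ⟨h1, h2⟩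
  · rintro (h1 | ⟨h1, h2, h3⟩)
    · exact h1.1
    · exact h.cl u v h1 h2 h3

/-- split graphs -/
theorem red_split (hV : ∀ T' : LG.Theory, (∀ S : LG.Structure ℕ, @Theory.Model LG ℕ S T' →
    Split (bs S)) → Vaught LG T') (T : LG.Theory) : Vaught LG T := by
  refine to_W 0 (fun T' hT' => ?_) T
  refine recode (W1 := WSp) (V0 := StD.W 0) ax_WSp fb_sr ?_ ?_
    (fun T2 hT2 => hV T2 fun S hS => ?_) T' hT'
  · intro S S' σ h h' hσ u v
    have hb := fun u => Pool.Agent.W889.SD.big_map σ (fun u v => (hσ u v).symm) u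
    rw [h.iff, h'.iff, hσ, ← hb, ← hb, σ.injective.ne_iff]
  · intro M hM
    have hs : ∀ u v, gd M u v → gd M v u := hM.sd.symm
    let S : LG.Structure ℕ := ofr fun u v => gd M u v ∨ (Big (gd M) u ∧ Big (gd M) v ∧ u ≠ v)
    have hS : ∀ u v, gd S u v ↔ gd M u v ∨ (Big (gd M) u ∧ Big (gd M) v ∧ u ≠ v) :=
      fun u v => Iff.rfl
    have hB : ∀ u, Big (gd S) u ↔ Big (gd M) u := by
      intro u
      constructor
      · intro h
        by_contra h1
        have h2 : ∀ v, gd S u v → gd M u v := by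
          intro v h3
          rcases (hS u v).1 h3 with h3 | h3
          · exact h3
          · exact absurd h3.1 h1
        obtain ⟨a, b, c, k1, k2, k3, k4, k5, k6⟩ := h
        exact h1 ⟨a, b, c, k1, k2, k3, h2 _ k4, h2 _ k5, h2 _ k6⟩
      · rintro ⟨a, b, c, k1, k2, k3, k4, k5, k6⟩
        exact ⟨a, b, c, k1, k2, k3, Or.inl k4, Or.inl k5, Or.inl k6⟩
    have e : sr S = gd M := by
      funext u v
      refine propext ?_
      unfold sr
      rw [hS, hB, hB]
      constructor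
      · rintro ⟨h1 | h1, h2⟩
        · exact h1
        · exact absurd ⟨h1.1, h1.2.1⟩ h2
      · intro h1
        exact ⟨Or.inl h1, fun h2 => hM.sd.indep u v h2.1 h2.2 h1⟩
    refine ⟨S, ⟨?_, fun u h => ?_, fun u v h1 h2 h3 => ?_, fun u => ?_⟩, fun u v => by rw [e]⟩
    · rw [e]
      exact ⟨hM.sd, hM.inf⟩
    · rcases (hS u u).1 h with h1 | h1
      · exact hM.sd.irrefl u h1
      · exact h1.2.2 rfl
    · exact Or.inr ⟨(hB u).1 h1, (hB v).1 h2, h3⟩
    · rw [hB, e]
  · have h := hT2 S hS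
    have h3 : Subd 0 (sr S) := h.w.sd
    refine ⟨⟨fun u => ?_, fun u v huv => ?_⟩, fun u => Big (sr S) u, fun u v hu hv huv => ?_,
      fun u v hu hv => ?_⟩
    · rw [Bool.eq_false_iff, ne_eq, bs_iff]
      exact h.ir u
    · rw [bs_iff, h.iff] at huv ⊢
      rcases huv with h1 | ⟨h1, h2, h4⟩
      · exact Or.inl (h3.symm _ _ h1)
      · exact Or.inr ⟨h2, h1, h4.symm⟩
    · rw [bs_iff, h.iff]
      exact Or.inr ⟨hu, hv, huv⟩
    · rw [Bool.eq_false_iff, ne_eq, bs_iff, h.iff]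
      rintro (h1 | h1)
      · exact sub_ss h3 hu hv h1
      · exact hu h1.1

end Pool.Agent.TH686.FO
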