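import Pool.Agent.TH686.FO.Quo
import Pool.Agent.TH686.FO.Good
import Pool.Agent.W889.FO.StD

set_option autoImplicit false

/-! First-order completeness of classes of structures in which grids can be defined. -/

namespace Pool.Agent.TH686.FO

open FirstOrder FirstOrder.Language
open Pool.Agent.W889.FO Pool.Agent.W889.VC Pool.Agent.W889.VC.Grid
open Pool.Agent.W889.SD (Nth)
open Pool.Agent.W889.FO.StA (FD.all1 FD.ex1)
open Pool.Agent.W889.FO.StE (LG gd siso_gd)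

/-- variables -/
abbrev x0 {α : Type} : α ⊕ Unit := Sum.inr ()
abbrev x1 {α : Type} : (α ⊕ Unit) ⊕ Unit := Sum.inl (Sum.inr ())
abbrev x2 {α : Type} : ((α ⊕ Unit) ⊕ Unit) ⊕ Unit := Sum.inl (Sum.inl (Sum.inr ()))
abbrev x3 {α : Type} : (((α ⊕ Unit) ⊕ Unit) ⊕ Unit) ⊕ Unit := Sum.inl (Sum.inl (Sum.inl (Sum.inr ())))

variable {L' : FirstOrder.Language.{0, 0}}

/-- a definable grid -/
structure FG (D : L'.Structure ℕ → Grid ℕ) : Prop where
  R : ∀ {α : Type} (i : α), FD (fun _ => True) (fun S v => (D S).R (v i))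
  C : ∀ {α : Type} (i : α), FD (fun _ => True) (fun S v => (D S).C (v i))
  lt : ∀ {α : Type} (i j : α), FD (fun _ => True) (fun S v => (D S).lt (v i) (v j))
  iR : ∀ {α : Type} (i j : α), FD (fun _ => True) (fun S v => (D S).iR (v i) (v j))
  iC : ∀ {α : Type} (i j : α), FD (fun _ => True) (fun S v => (D S).iC (v i) (v j))

namespace FG

variable {D : L'.Structure ℕ → Grid ℕ} {α : Type}

theorem P (h : FG D) (i : α) : FD (fun _ => True) (fun S v => (D S).P (v i)) :=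
  (h.R i).not.and (h.C i).not

theorem Fib (h : FG D) (i j k : α) :
    FD (fun _ => True) (fun S v => (D S).Fib (v i) (v j) (v k)) :=
  (h.P k).and ((h.iR k i).and (h.iC k j))

theorem Mult (h : FG D) (k : ℕ) (i j : α) :
    FD (fun _ => True) (fun S v => (D S).Mult (v i) (v j) k) := by
  have h1 : FD (fun _ => True) (fun S v => ∃ X : Fin k → ℕ, Function.Injective X ∧
      (∀ m, (D S).Fib (v i) (v j) (X m)) ∧
      ∀ p, (D S).Fib (v i) (v j) p → ∃ m, p = X m) :=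
    FD.ex (P := fun S v (X : Fin k → ℕ) => Function.Injective X ∧
      (∀ m, (D S).Fib (v i) (v j) (X m)) ∧
      ∀ p, (D S).Fib (v i) (v j) p → ∃ m, p = X m) <|
    (FD.inj fun m => Sum.inr m).and <|
    (FD.fin fun m => h.Fib (Sum.inl i) (Sum.inl j) (Sum.inr m)).and <|
    FD.all1 <| (h.Fib (Sum.inl (Sum.inl i)) (Sum.inl (Sum.inl j)) (Sum.inr ())).imp <|
      FD.fin' fun m => FD.eq (Sum.inr ()) (Sum.inl (Sum.inr m))
  refine h1.congr fun S _ v => ?_
  classical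
  constructor
  · rintro ⟨X, h2, h3, h4⟩
    refine ⟨Finset.univ.image X, ?_, fun p => ?_⟩
    · rw [Finset.card_image_of_injective _ h2, Finset.card_univ, Fintype.card_fin]
    · rw [Finset.mem_image]
      constructor
      · rintro ⟨m, -, rfl⟩
        exact h3 m
      · intro hp
        obtain ⟨m, hm⟩ := h4 p hp
        exact ⟨m, Finset.mem_univ _, hm.symm⟩
  · rintro ⟨s, h2, h3⟩
    let e := (Finset.equivFinOfCardEq h2).symm
    refine ⟨fun m => (e m : ℕ), fun m n hmn => e.injective (Subtype.ext hmn), fun m => ?_,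
      fun p hp => ?_⟩
    · exact (h3 _).1 (e m).2
    · refine ⟨e.symm ⟨p, (h3 p).2 hp⟩, ?_⟩
      show p = ((e (e.symm ⟨p, (h3 p).2 hp⟩)) : ℕ)
      rw [Equiv.apply_symm_apply]

theorem SK (h : FG D) (i j : α) : FD (fun _ => True) (fun S v => SK (D S) (v i) (v j)) := by
  have h1 : FD (fun _ => True) (fun S v => ∀ c, (D S).C c → ∀ t,
      ((D S).Mult (v i) c (kv t) ↔ (D S).Mult (v j) c (kv t))) :=
    FD.all1 <| (h.C x0).imp <| FD.fin fun t =>
      (h.Mult (kv t) (Sum.inl i) x0).iff (h.Mult (kv t) (Sum.inl j) x0)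
  exact h1

theorem SCK (h : FG D) (i j : α) : FD (fun _ => True) (fun S v => SCK (D S) (v i) (v j)) := by
  have h1 : FD (fun _ => True) (fun S v => ∀ r, (D S).R r → ∀ t,
      ((D S).Mult r (v i) (kv t) ↔ (D S).Mult r (v j) (kv t))) :=
    FD.all1 <| (h.R x0).imp <| FD.fin fun t =>
      (h.Mult (kv t) x0 (Sum.inl i)).iff (h.Mult (kv t) x0 (Sum.inl j))
  exact h1

theorem MkC (h : FG D) (i j : α) : FD (fun _ => True) (fun S v => MkC (D S) (v i) (v j)) := by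
  have h1 : FD (fun _ => True) (fun S v => ∀ r', (D S).R r' →
      (TH686.FO.SK (D S) r' (v j) → (D S).Mult r' (v i) (kv (Sum.inl true))) ∧
      (¬ TH686.FO.SK (D S) r' (v j) → (D S).Mult r' (v i) (kv (Sum.inl false)))) :=
    FD.all1 <| (h.R x0).imp <|
      ((h.SK x0 (Sum.inl j)).imp (h.Mult _ x0 (Sum.inl i))).and
      ((h.SK x0 (Sum.inl j)).not.imp (h.Mult _ x0 (Sum.inl i)))
  exact h1

theorem EdC (h : FG D) (i j k : α) :
    FD (fun _ => True) (fun S v => EdC (D S) (v i) (v j) (v k)) := by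
  have h1 : FD (fun _ => True) (fun S v => ∀ r', (D S).R r' → ∀ f : Fin 2 → Bool,
      (TH686.FO.SK (D S) r' (v j) ↔ f 0 = true) → (TH686.FO.SK (D S) r' (v k) ↔ f 1 = true) →
      (D S).Mult r' (v i) (kv (Sum.inr f))) :=
    FD.all1 <| (h.R x0).imp <| FD.fin fun f =>
      ((h.SK x0 (Sum.inl j)).iff (FD.const _)).imp <|
      ((h.SK x0 (Sum.inl k)).iff (FD.const _)).imp (h.Mult _ x0 (Sum.inl i))
  exact h1

/-- the dense order axioms -/
theorem on (h : FG D) {T : L'.Structure ℕ → ℕ → Prop}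
    (hT : ∀ {α : Type} (i : α), FD (fun _ => True) (fun S v => T S (v i))) :
    FD (fun _ => True) (fun S (_ : α → ℕ) => On (T S) (D S).lt) := by
  have h1 : FD (fun _ => True) (fun S (_ : α → ℕ) => ∀ a, T S a → ¬ (D S).lt a a) :=
    FD.all1 <| (hT x0).imp (h.lt x0 x0).not
  have h2 : FD (fun _ => True) (fun S (_ : α → ℕ) => ∀ a b c, T S a → T S b → T S c →
      (D S).lt a b → (D S).lt b c → (D S).lt a c) :=
    FD.all1 <| FD.all1 <| FD.all1 <| (hT x2).imp <| (hT x1).imp <| (hT x0).imp <|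
      (h.lt x2 x1).imp <| (h.lt x1 x0).imp (h.lt x2 x0)
  have h3 : FD (fun _ => True) (fun S (_ : α → ℕ) => ∀ a b, T S a → T S b → a ≠ b →
      (D S).lt a b ∨ (D S).lt b a) :=
    FD.all1 <| FD.all1 <| (hT x1).imp <| (hT x0).imp <| (FD.eq x1 x0).not.imp <|
      (h.lt x1 x0).or (h.lt x0 x1)
  have h4 : FD (fun _ => True) (fun S (_ : α → ℕ) => ∀ a b, T S a → T S b → (D S).lt a b →
      ∃ c, T S c ∧ (D S).lt a c ∧ (D S).lt c b) :=
    FD.all1 <| FD.all1 <| (hT x1).imp <| (hT x0).imp <| (h.lt x1 x0).imp <| FD.ex1 <|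
      (hT x0).and <| (h.lt x2 x0).and (h.lt x0 x1)
  have h5 : FD (fun _ => True) (fun S (_ : α → ℕ) => ∀ a, T S a → ∃ b, T S b ∧ (D S).lt a b) :=
    FD.all1 <| (hT x0).imp <| FD.ex1 <| (hT x0).and (h.lt x1 x0)
  have h6 : FD (fun _ => True) (fun S (_ : α → ℕ) => ∀ a, T S a → ∃ b, T S b ∧ (D S).lt b a) :=
    FD.all1 <| (hT x0).imp <| FD.ex1 <| (hT x0).and (h.lt x0 x1)
  refine (h1.and (h2.and (h3.and (h4.and (h5.and h6))))).congr fun S _ v => ?_
  exact ⟨fun ⟨k1, k2, k3, k4, k5, k6⟩ => ⟨k1, k2, k3, k4, k5, k6⟩,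
    fun ⟨k1, k2, k3, k4, k5, k6⟩ => ⟨k1, k2, k3, k4, k5, k6⟩⟩

theorem base (h : FG D) : FD (fun _ => True) (fun S (_ : α → ℕ) => Base (D S)) := by
  have h1 : FD (fun _ => True) (fun S (_ : α → ℕ) => ∀ u, (D S).R u → ¬ (D S).C u) :=
    FD.all1 <| (h.R x0).imp (h.C x0).not
  have h2 : FD (fun _ => True) (fun S (_ : α → ℕ) => ∀ p, (D S).P p → ∃ r, (D S).R r ∧
      (D S).iR p r ∧ ∀ r', (D S).R r' → (D S).iR p r' → r' = r) :=
    FD.all1 <| (h.P x0).imp <| FD.ex1 <| (h.R x0).and <| (h.iR x1 x0).and <|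
      FD.all1 <| (h.R x0).imp <| (h.iR x2 x0).imp (FD.eq x0 x1)
  have h3 : FD (fun _ => True) (fun S (_ : α → ℕ) => ∀ p, (D S).P p → ∃ r, (D S).C r ∧
      (D S).iC p r ∧ ∀ r', (D S).C r' → (D S).iC p r' → r' = r) :=
    FD.all1 <| (h.P x0).imp <| FD.ex1 <| (h.C x0).and <| (h.iC x1 x0).and <|
      FD.all1 <| (h.C x0).imp <| (h.iC x2 x0).imp (FD.eq x0 x1)
  refine (h1.and ((h.on (T := fun S => (D S).R) h.R).and ((h.on (T := fun S => (D S).C) h.C).and
    (h2.and h3)))).congr fun S _ v => ?_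
  exact ⟨fun ⟨k1, k2, k3, k4, k5⟩ => ⟨k1, k2, k3, k4, k5⟩,
    fun ⟨k1, k2, k3, k4, k5⟩ => ⟨k1, k2, k3, k4, k5⟩⟩

/-- the axioms are first-order -/
theorem good (h : FG D) : Ax (fun S => Good2 (D S)) := by
  have h1 : Ax (fun S => ∀ r r1 r2, (D S).R r → (D S).R r1 → (D S).R r2 → (D S).lt r1 r2 →
      ∃ r', (D S).R r' ∧ (D S).lt r1 r' ∧ (D S).lt r' r2 ∧ TH686.FO.SK (D S) r' r) :=
    Ax.of <| FD.all1 <| FD.all1 <| FD.all1 <| (h.R x2).imp <| (h.R x1).imp <| (h.R x0).imp <|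
      (h.lt x1 x0).imp <| FD.ex1 <| (h.R x0).and <| (h.lt x2 x0).and <| (h.lt x0 x1).and
      (h.SK x0 x3)
  have h2 : Ax (fun S => ∀ r r1 r2, (D S).C r → (D S).C r1 → (D S).C r2 → (D S).lt r1 r2 →
      ∃ r', (D S).C r' ∧ (D S).lt r1 r' ∧ (D S).lt r' r2 ∧ TH686.FO.SCK (D S) r' r) :=
    Ax.of <| FD.all1 <| FD.all1 <| FD.all1 <| (h.C x2).imp <| (h.C x1).imp <| (h.C x0).imp <|
      (h.lt x1 x0).imp <| FD.ex1 <| (h.C x0).and <| (h.lt x2 x0).and <| (h.lt x0 x1).and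
      (h.SCK x0 x3)
  have h3 : Ax (fun S => ∀ n : ℕ, ∃ X : Fin n → ℕ, (∀ i, (D S).R (X i)) ∧
      ∀ i j, TH686.FO.SK (D S) (X i) (X j) → i = j) :=
    Ax.all fun n => Ax.of <| FD.ex (P := fun S _ (X : Fin n → ℕ) => (∀ i, (D S).R (X i)) ∧
      ∀ i j, TH686.FO.SK (D S) (X i) (X j) → i = j) <|
      (FD.fin fun i => h.R (Sum.inr i)).and <| FD.fin fun i => FD.fin fun j =>
        (h.SK (Sum.inr i) (Sum.inr j)).imp (FD.const (i = j))
  have h4 : Ax (fun S => ∀ c, (D S).C c → (∃ r, (D S).R r ∧ TH686.FO.MkC (D S) c r) ∨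
      ∃ r, ∃ s, (D S).R r ∧ (D S).R s ∧ TH686.FO.EdC (D S) c r s) :=
    Ax.of <| FD.all1 <| (h.C x0).imp <|
      (FD.ex1 <| (h.R x0).and (h.MkC x1 x0)).or <|
      FD.ex1 <| FD.ex1 <| (h.R x1).and <| (h.R x0).and (h.EdC x2 x1 x0)
  have h5 : Ax (fun S => ∀ r, (D S).R r → ∃ c, (D S).C c ∧ TH686.FO.MkC (D S) c r) :=
    Ax.of <| FD.all1 <| (h.R x0).imp <| FD.ex1 <| (h.C x0).and (h.MkC x0 x1)
  refine ((Ax.of (h.base (α := Empty))).and (h1.and (h2.and (h3.and (h4.and h5))))).congr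
    fun S => ?_
  exact ⟨fun ⟨k1, k2, k3, k4, k5, k6⟩ => ⟨k1, k2, k3, k4, k5, k6⟩,
    fun ⟨k1, k2, k3, k4, k5, k6⟩ => ⟨k1, k2, k3, k4, k5, k6⟩⟩

end FG

/-- A class of structures in which grids are defined by first-order formulas. -/
structure FT (D : L'.Structure ℕ → Grid ℕ) (W0 : L'.Structure ℕ → Prop) : Prop where
  fg : FG D
  ax : Ax W0
  iso' : ∀ y z, W0 y → W0 z → Good2 (D y) → Good2 (D z) →
    (∃ σ : Equiv.Perm ℕ, GIso σ (D y) (D z)) → SIso y z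
  ex : ∀ γ : Grid ℕ, Base γ → (∃ r, γ.R r) → (∃ c, γ.C c) →
    (∀ r c, γ.R r → γ.C c → ∃ p, γ.Fib r c p) → (∀ r c, γ.R r → γ.C c → ∃ k, γ.Mult r c k) →
    ∃ y, W0 y ∧ GIso (Equiv.refl ℕ) γ (D y)

namespace FT

variable {D : L'.Structure ℕ → Grid ℕ} {W0 : L'.Structure ℕ → Prop}

/-- the interpretation -/
def itq (F : FT D W0) : Itq LG L' where
  W := fun S => W0 S ∧ Good2 (D S)
  axW := F.ax.and F.fg.good
  dom := fun S u => (D S).R u
  eqv := fun S u v => SK (D S) u v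
  rel := fun {n} Q => match n, Q with
    | _, FirstOrder.Language.graphRel.adj => fun S u => ∃ c, (D S).C c ∧ EdC (D S) c (u 0) (u 1)
  fdom := (F.fg.R ()).mono fun _ _ => trivial
  feqv := (F.fg.SK 0 1).mono fun _ _ => trivial
  frel := fun {n} Q => match n, Q with
    | _, FirstOrder.Language.graphRel.adj => (FD.ex1 <| (F.fg.C x0).and
        (F.fg.EdC x0 (Sum.inl 0) (Sum.inl 1))).mono fun _ _ => trivial
  refl := fun S _ u _ => SK.refl (D S) u
  symm := fun S _ u v _ _ h => h.symm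
  trans := fun S _ u v w _ _ _ h h' => h.trans h'
  cong := fun S _ n Q => match n, Q with
    | _, FirstOrder.Language.graphRel.adj => fun u v _ _ h ⟨c, hc, h1⟩ =>
      ⟨c, hc, h1.cong (h 0) (h 1)⟩
  inf := fun S h N => by
    obtain ⟨r, h1, h2⟩ := h.2.infR N
    refine ⟨r, h1, h2.1, fun u' h3 h4 h5 => h2.2 u' h3 h4 ((h.2.same h4 h2.1).1 h5)⟩

theorem rp_iff (F : FT D W0) {S : L'.Structure ℕ} (h : Good2 (D S)) :
    F.itq.rp S = (D S).rep := by
  funext r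
  refine propext (and_congr_right fun hr => forall_congr' fun r' => forall_congr' fun h1 => ?_)
  refine forall_congr' fun h2 => not_congr (h.same h2 hr)

/-- the decoded structure -/
theorem dec_iff (F : FT D W0) [L'.IsRelational] {S : L'.Structure ℕ} (h : Good2 (D S))
    (v : Fin 2 → ℕ) : dec ar (D S) 0 v = true ↔
      @Structure.RelMap LG ℕ (F.itq.D S) 2 FirstOrder.Language.adj v := by
  rw [h.dec_zero]
  show _ ↔ ∃ u : Fin 2 → ℕ, (∀ i, Nth (F.itq.rp S) (v i) (u i)) ∧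
    ∃ c, (D S).C c ∧ EdC (D S) c (u 0) (u 1)
  rw [F.rp_iff h]
  exact Iff.rfl

theorem up (F : FT D W0) [L'.IsRelational] (S S' : L'.Structure ℕ) (h : F.itq.W S)
    (h' : F.itq.W S') (hi : SIso (F.itq.D S) (F.itq.D S')) : SIso S S' := by
  obtain ⟨e⟩ := hi
  let σ : Equiv.Perm ℕ := @FirstOrder.Language.Equiv.toEquiv LG ℕ ℕ (F.itq.D S) (F.itq.D S') e
  have h1 : Iso (dec ar (D S)) (dec ar (D S')) := by
    refine ⟨σ, fun i v => ?_⟩
    by_cases hi : i = 0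
    · subst hi
      rw [Bool.eq_iff_iff, F.dec_iff h.2, F.dec_iff h'.2]
      exact iso_rel e FirstOrder.Language.adj v
    · rw [h.2.dec_ne hi, h'.2.dec_ne hi]
  obtain ⟨κ, κ', hl⟩ := lab_of_good h.2.goodN
  obtain ⟨μ, μ', hl'⟩ := lab_of_good h'.2.goodN
  exact F.iso' S S' h.1 h'.1 h.2 h'.2 (unique h.2.base h'.2.base h1 hl hl')

theorem exi (F : FT D W0) [L'.IsRelational] (M : LG.Structure ℕ) :
    ∃ S, F.itq.W S ∧ SIso (F.itq.D S) M := by
  classical
  let x : Str ar := fun i v => if i = 0 then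
    decide (@Structure.RelMap LG ℕ M 2 FirstOrder.Language.adj v) else false
  have hx : ∀ i v, i ≠ 0 → x i v = false := fun i v hi => if_neg hi
  obtain ⟨γ, κ, κ', hb, hl⟩ := exists_grid x
  have hr0 : ∃ r, γ.R r := ⟨_, (hl.sR 0).choose_spec.1⟩
  have hc0 : ∃ c, γ.C c := ⟨_, ((hl.sC (Sum.inl 0)).2 trivial).choose_spec.1⟩
  obtain ⟨S, h1, h2⟩ := F.ex γ hb hr0 hc0 (by
    intro r c hr hc
    obtain ⟨s, hs, h⟩ := hl.mult r c hr hc
    have : 0 < s.card := by rw [hs]; exact lam_pos _ _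
    obtain ⟨p, hp⟩ := Finset.card_pos.1 this
    exact ⟨p, (h p).1 hp⟩) (fun r c hr hc => ⟨_, hl.mult r c hr hc⟩)
  have hb' := h2.base hb
  have hl' := h2.lab hl
  have hg := good2_of_lab hb' hx hl'
  refine ⟨S, ⟨h1, hg⟩, ?_⟩
  obtain ⟨τ, hτ⟩ := (good_of_lab hb' hl').2
  obtain ⟨f, -⟩ := siso_of (S := F.itq.D S) (S' := M) τ (fun n Q v => by
    cases Q with
    | adj =>
      have h3 := F.dec_iff hg v
      have h4 := hτ 0 v
      have h5 : x 0 (τ ∘ v) = true ↔ @Structure.RelMap LG ℕ M 2 FirstOrder.Language.adj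
          (τ ∘ v) := by simp [x]
      rw [← h4] at h3
      exact h5.symm.trans h3)
  exact ⟨f⟩

/-- Vaught's conjecture for first-order theories reduces to the theories of structures in the
class. -/
theorem reduce (F : FT D W0) [L'.IsRelational]
    (hV : ∀ T' : L'.Theory, (∀ S : L'.Structure ℕ, @Theory.Model L' ℕ S T' →
      W0 S ∧ Good2 (D S)) → Vaught L' T') (T : LG.Theory) : Vaught LG T := by
  have := StD.countable_LG
  exact F.itq.transfer (fun S S' => F.up S S') T (fun M _ => F.exi M) fun T' hT' =>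
    hV T' fun S hS => (hT' S hS).1

end FT

end Pool.Agent.TH686.FO
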